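import Pool.Agent.H144.TS.Stm

/-! Part DIV of the project TS. -/

set_option autoImplicit false

namespace Pool.Agent.H144.TS

open Finset

namespace DIVx

theorem card_mult (N m : ℕ) :
    ((((Icc 1 N).filter (fun n => m ∣ n)).card : ℕ) : ℝ) ≤ (N : ℝ) / m := by
  have h1 : (Icc 1 N).filter (fun n => m ∣ n) = (Ioc 0 N).filter (fun n => m ∣ n) := by
    ext n
    simp only [mem_filter, mem_Icc, mem_Ioc]
    constructor
    · rintro ⟨⟨h1, h2⟩, h3⟩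
      exact ⟨⟨h1, h2⟩, h3⟩
    · rintro ⟨⟨h1, h2⟩, h3⟩
      exact ⟨⟨h1, h2⟩, h3⟩
  rw [h1, Nat.Ioc_filter_dvd_card_eq_div]
  exact Nat.cast_div_le

/-- the tail of the series of the inverse squares -/
theorem tail {N : ℕ} {y : ℝ} (hy : 1 ≤ y) :
    ∑ r ∈ Ioc ⌊y⌋₊ N, ((r : ℝ) ^ 2)⁻¹ ≤ 2 / y := by
  have hk1 : 1 ≤ ⌊y⌋₊ := Nat.le_floor (by exact_mod_cast hy)
  have hky : y < (⌊y⌋₊ : ℝ) + 1 := Nat.lt_floor_add_one y
  have hk1' : (1 : ℝ) ≤ (⌊y⌋₊ : ℝ) := by exact_mod_cast hk1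
  have hy0 : 0 < y := by linarith
  rcases Nat.lt_or_ge N ⌊y⌋₊ with hN | hN
  · rw [Ioc_eq_empty (by omega), sum_empty]
    positivity
  · refine (sum_Ioc_inv_sq_le_sub (by omega) hN).trans ?_
    have h1 : (0 : ℝ) ≤ (N : ℝ)⁻¹ := by positivity
    have h2 : ((⌊y⌋₊ : ℝ))⁻¹ ≤ 2 / y := by
      rw [inv_eq_one_div, div_le_div_iff₀ (by linarith) hy0]
      linarith
    linarith

/-- the harmonic sum -/
theorem harm (N : ℕ) : ∑ j ∈ Icc 1 N, ((j : ℝ))⁻¹ ≤ 1 + Real.log N := by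
  have h := harmonic_le_one_add_log N
  rw [harmonic_eq_sum_Icc] at h
  push_cast at h
  exact h

end DIVx

open DIVx in
theorem t_div : S_DIV := by
  intro N hN L hL
  classical
  have hNR : (0 : ℝ) ≤ N := Nat.cast_nonneg N
  have hsub : (Icc 1 N).filter (fun n => ∃ p d : ℕ, p.Prime ∧ L < p ∧ p ∣ n ∧ d ∣ n ∧
      d ≡ 1 [MOD p] ∧ d ≠ 1) ⊆ (Ioc ⌊L⌋₊ N).biUnion fun p => (Icc 1 N).biUnion fun j =>
        (Icc 1 N).filter (fun n => p * (1 + j * p) ∣ n) := by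
    intro n hn
    rw [mem_filter, mem_Icc] at hn
    obtain ⟨⟨hn1, hn2⟩, p, d, hp, hLp, hpn, hdn, hd, hd1⟩ := hn
    have hp2 := hp.two_le
    have hd0 : 0 < d := Nat.pos_of_dvd_of_pos hdn (by omega)
    have hdvd : p ∣ d - 1 := (Nat.modEq_iff_dvd' hd0).1 hd.symm
    obtain ⟨j, hj⟩ := hdvd
    have hdj : d = 1 + j * p := by
      rw [mul_comm j p, ← hj]
      omega
    have hj1 : 1 ≤ j := by
      rcases Nat.eq_zero_or_pos j with h | h
      · exfalso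
        rw [h] at hdj
        simp at hdj
        exact hd1 hdj
      · exact h
    have hcop : Nat.Coprime p d := by
      rw [hdj]
      have h1 : Nat.Coprime p 1 := Nat.coprime_one_right p
      have h2 := (Nat.coprime_add_mul_right_right p 1 j).2 h1
      exact h2
    have hpd : p * d ∣ n := hcop.mul_dvd_of_dvd_of_dvd hpn hdn
    have hpdN : p * d ≤ N := (Nat.le_of_dvd (by omega) hpd).trans hn2
    have hpN : p ≤ N := (Nat.le_mul_of_pos_right p hd0).trans hpdN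
    have hjN : j ≤ N := by
      have h1 : j ≤ j * p := Nat.le_mul_of_pos_right j (by omega)
      have h2 : d ≤ p * d := Nat.le_mul_of_pos_left d (by omega)
      omega
    have hLp' : ⌊L⌋₊ < p := (Nat.floor_lt (by linarith)).2 hLp
    rw [mem_biUnion]
    refine ⟨p, mem_Ioc.2 ⟨hLp', hpN⟩, ?_⟩
    rw [mem_biUnion]
    refine ⟨j, mem_Icc.2 ⟨hj1, hjN⟩, ?_⟩
    rw [mem_filter, mem_Icc, ← hdj]
    exact ⟨⟨hn1, hn2⟩, hpd⟩
  have hcard := (card_le_card hsub).trans (card_biUnion_le.trans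
    (sum_le_sum fun p _ => card_biUnion_le (s := Icc 1 N)
      (t := fun j => (Icc 1 N).filter (fun n => p * (1 + j * p) ∣ n))))
  have hcardR : ((((Icc 1 N).filter (fun n => ∃ p d : ℕ, p.Prime ∧ L < p ∧ p ∣ n ∧ d ∣ n ∧
      d ≡ 1 [MOD p] ∧ d ≠ 1)).card : ℕ) : ℝ) ≤
      ∑ p ∈ Ioc ⌊L⌋₊ N, ∑ j ∈ Icc 1 N,
        ((((Icc 1 N).filter (fun n => p * (1 + j * p) ∣ n)).card : ℕ) : ℝ) := by
    exact_mod_cast hcard
  refine hcardR.trans ?_
  have hterm : ∀ p ∈ Ioc ⌊L⌋₊ N, ∀ j ∈ Icc 1 N,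
      ((((Icc 1 N).filter (fun n => p * (1 + j * p) ∣ n)).card : ℕ) : ℝ) ≤
        N * ((((p : ℝ) ^ 2)⁻¹) * ((j : ℝ))⁻¹) := by
    intro p hp j hj
    have hp1 : 0 < p := by
      have := (mem_Ioc.1 hp).1
      omega
    have hj1 : 0 < j := (mem_Icc.1 hj).1
    have hpR : (0 : ℝ) < p := by exact_mod_cast hp1
    have hjR : (0 : ℝ) < j := by exact_mod_cast hj1
    refine (card_mult N _).trans ?_
    rw [div_eq_mul_inv, ← mul_inv]
    refine mul_le_mul_of_nonneg_left ?_ hNR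
    refine inv_anti₀ (by positivity) ?_
    push_cast
    nlinarith
  refine (sum_le_sum fun p hp => sum_le_sum fun j hj => hterm p hp j hj).trans ?_
  have e : ∑ p ∈ Ioc ⌊L⌋₊ N, ∑ j ∈ Icc 1 N, (N : ℝ) * ((((p : ℝ) ^ 2)⁻¹) * ((j : ℝ))⁻¹) =
      N * ((∑ p ∈ Ioc ⌊L⌋₊ N, (((p : ℝ) ^ 2)⁻¹)) * ∑ j ∈ Icc 1 N, ((j : ℝ))⁻¹) := by
    rw [sum_mul_sum, mul_sum]
    refine sum_congr rfl fun p _ => ?_
    rw [mul_sum]
  rw [e]
  have h1 := tail (N := N) hL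
  have h2 := harm N
  have h3 : 0 ≤ ∑ j ∈ Icc 1 N, ((j : ℝ))⁻¹ := sum_nonneg fun j _ => by positivity
  have h4 : (0 : ℝ) ≤ 2 / L := by positivity
  have h5 := mul_le_mul h1 h2 h3 h4
  have h6 := mul_le_mul_of_nonneg_left h5 hNR
  refine h6.trans (le_of_eq ?_)
  ring

end Pool.Agent.H144.TS
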